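import Pool.Agent.H998_TU.Samp

/-!
# The sampling principle for the `3x+k` maps at every scale, down to almost bounded values

Let `k` be prime to `6`. For every `κ < 2 / log (4 / 3)` and `ε > 0` there is an `m` such that for every
multiple `q` of `k * 3 ^ m` and every length `H` there is a `Z₀` such that, for all `N ≥ Z ≥ Z₀` and all
sequences of functions `g 0, g 1, …` on the integers with values in `[-1, 1]` (which may depend on `Z`
and `N`; no regularity is assumed), all but at most `ε N` of the integers `x` with `0 < |x| ≤ N` have an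
orbit with an element of absolute value less than `Z` and are such that, `y` being the first such
element, for every `t ≤ κ log Z` the sum over `i < t` of `g i` at `T^i y` differs by at most `ε log Z`
from the sum of the averages of `g i` over the progression `T^i y, T^i y + q, …, T^i y + (H - 1) q`.

The sampling principle of the starting files (`MP_d0d59f_nt.SamplingPrinciple`) is the case `Z = N`, in
which `y = x`, and controls the orbits down to the size `|x| ^ o(1)`. Here `Z` may be almost bounded: all
laws for the terms of almost all orbits which follow from averages over progressions (for arithmetic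
functions, digits, fractional parts) hold for almost all orbits at all scales between `N` and a constant.
-/

set_option autoImplicit false

namespace Pool.Agent.Results.MP_7f88e4_nt.SamplingAtEveryScale

/-- The `3x+k` map on the integers. -/
def T (k x : ℤ) : ℤ := if x % 2 = 0 then x / 2 else (3 * x + k) / 2

theorem result (k : ℤ) (hk : k % 6 = 1 ∨ k % 6 = 5) (κ ε : ℝ)
    (hκ : κ < 2 / Real.log (4 / 3)) (hε : 0 < ε) :
    ∃ m : ℕ, ∀ (q : ℤ) (H : ℕ), k * 3 ^ m ∣ q → 1 ≤ H → ∃ Z₀ : ℝ, 2 ≤ Z₀ ∧ ∀ (Z : ℝ) (N : ℕ), Z₀ ≤ Z →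
      Z ≤ N → ∀ g : ℕ → ℤ → ℝ, (∀ i x, |g i x| ≤ 1) →
        (Set.ncard {x : ℤ | x ≠ 0 ∧ |x| ≤ N ∧ ¬ ∃ n : ℕ, |(((T k)^[n] x : ℤ) : ℝ)| < Z ∧
          (∀ j < n, Z ≤ |(((T k)^[j] x : ℤ) : ℝ)|) ∧ ∀ t : ℕ, (t : ℝ) ≤ κ * Real.log Z →
          |∑ i ∈ Finset.range t, (g i ((T k)^[i] ((T k)^[n] x)) -
            (∑ h ∈ Finset.range H, g i ((T k)^[i] ((T k)^[n] x) + q * h)) / H)|
              ≤ ε * Real.log Z} : ℝ) ≤ ε * N :=
  H998_TU.samp (Int.odd_iff.2 (by omega)) (by omega) (fun _ => rfl) κ ε hκ hε

end Pool.Agent.Results.MP_7f88e4_nt.SamplingAtEveryScale
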