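import Mathlib
import Pool.Agent.H977.PW.PUnif2

set_option autoImplicit false

/-!
# Numbers `c + u y^q` in the orbits and cycles of the `3x+k` maps, uniformly in `k` and `c`

Let `S` be a finite set of primes and `E` a positive integer.  For an integer `c` call an integer `z ≠ c`
special if `z - c = u y^q` with `2 ≤ q ≤ E` and an integer `u` composed of primes of `S` (so, for `S` empty,
if `z - c` or `c - z` is a perfect power with exponent at most `E`); if `c` is a periodic point of `T_{3,k}`, then
it is also required that `z` is not congruent to `c` mod `2^n` for any `n ≥ 1` with `T_{3,k}^n(c) = c` (for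
`c = 0`: that `z` is odd).  There are constants `C` and `K` such that for all odd `k`, all integers `c` and
all `m ≥ (|k| + |c| + K)^K`:

* if the first `N` terms of an orbit of `T_{3,k}` are of absolute value at least `m`, then at most
  `C (N / log m + 1)` of them are special;
* if all elements of a cycle `Z` of `T_{3,k}` are of absolute value at least `m`, then at most
  `C |Z| / log m` of them are special.

Proof: let `i ≤ γ log |x|`, and let `z_i` be the terms of the trajectory of `x`.  The numbers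
`3^(K-k_i) 2^i (z_i - c)` are near to each other, and different if the `z_i` are away from `c` in the
above sense.  If two of them are `d Y^q` and `d' Z^q` with `q ≥ 3` and bounded `d`, `d'`, this contradicts Roth's
theorem; if three of them are of the form `d Y^2`, this contradicts the subspace theorem with quadratic
coefficients (apart from the rational case, which is elementary).  So at most `π(E) + 1` of them are special.
-/

namespace Pool.Agent.Results.MP_7f88e4_nt.ShiftedPowersUniform

open Finset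

/-- The `3x+k` map. -/
def T (k x : ℤ) : ℤ := if x % 2 = 0 then x / 2 else (3 * x + k) / 2

/-- `Z` is a cycle (periodic orbit) of the `3x+k` map. -/
def IsCycle (k : ℤ) (Z : Finset ℤ) : Prop :=
  ∃ x : ℤ, ∃ p : ℕ, 1 ≤ p ∧ (T k)^[p] x = x ∧ Z = (range p).image fun i => (T k)^[i] x

/-- If `c` is periodic under `T k` with period `n`, then `z` and `c` are different modulo `2^n`. -/
def Away (k c z : ℤ) : Prop :=
  ∀ n : ℕ, 1 ≤ n → (T k)^[n] c = c → ¬ ((2 : ℤ) ^ n ∣ z - c)

/-- `z ≠ c` is away from `c`, and `z - c = u y^q` with `2 ≤ q ≤ E` and `u` composed of primes of `S`. -/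
def Special (k c : ℤ) (S : Finset ℕ) (E : ℕ) (z : ℤ) : Prop :=
  Away k c z ∧ z ≠ c ∧ ∃ q : ℕ, 2 ≤ q ∧ q ≤ E ∧ ∃ u y : ℤ, z - c = u * y ^ q ∧
    ∀ p : ℕ, p.Prime → (p : ℤ) ∣ u → p ∈ S

lemma T_eq (k : ℤ) : T k = Pool.Agent.H977.SP.G 3 k 1 := by
  funext x
  unfold T Pool.Agent.H977.SP.G
  rw [pow_one]

lemma special_eq (k c : ℤ) (S : Finset ℕ) (E : ℕ) :
    Special k c S E = Pool.Agent.H977.PW.UPKc 3 k c S E := by
  funext z
  unfold Special Away
  rw [T_eq]
  rfl

open Classical in
/-- For every finite set `S` and every `E` there are `C > 0` and `K` such that for all odd `k`, all `c` and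
all `m ≥ (|k| + |c| + K)^K`: (1) if `|T_k^i(x)| ≥ m` for all `i < N`, then at most `C (N / log m + 1)` of the
numbers `T_k^i(x)`, `i < N`, are special; (2) if `Z` is a cycle of `T_k` with `|z| ≥ m` for all `z ∈ Z`, then
at most `C |Z| / log m` of its elements are special. -/
theorem result (S : Finset ℕ) (E : ℕ) :
    ∃ C : ℝ, ∃ K : ℕ, 0 < C ∧ ∀ k c : ℤ, k % 2 = 1 → ∀ m : ℕ, (|k| + |c| + K) ^ K ≤ m →
      (∀ (x : ℤ) (N : ℕ), (∀ i < N, (m : ℤ) ≤ |(T k)^[i] x|) →
        (((range N).filter fun i => Special k c S E ((T k)^[i] x)).card : ℝ) ≤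
          C * (N / Real.log m + 1)) ∧
      (∀ Z : Finset ℤ, IsCycle k Z → (∀ z ∈ Z, (m : ℤ) ≤ |z|) →
        ((Z.filter (Special k c S E)).card : ℝ) ≤ C * Z.card / Real.log m) := by
  obtain ⟨C, K₀, M, hC, h⟩ := Pool.Agent.H977.PW.powers_u (a := 3) (by norm_num) S E
  refine ⟨C, K₀ + M + 2, hC, ?_⟩
  set K := K₀ + M + 2 with hK
  intro k c hk m hm
  have hk0 := abs_nonneg k
  have hc0 := abs_nonneg c
  have hKZ : (K : ℤ) = K₀ + M + 2 := by rw [hK]; push_cast; ring
  have hbase : |k| + |c| + K ≤ (|k| + |c| + K) ^ K := le_self_pow₀ (by omega) (by omega)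
  have h2 : 2 ≤ m := by
    have : (2 : ℤ) ≤ m := by omega
    exact_mod_cast this
  have hM : M ≤ m := by
    have : (M : ℤ) ≤ m := by omega
    exact_mod_cast this
  have hpow : (|k| + |c|) ^ K₀ ≤ (m : ℤ) := by
    calc (|k| + |c|) ^ K₀ ≤ (|k| + |c| + K) ^ K₀ := pow_le_pow_left₀ (by omega) (by omega) _
      _ ≤ (|k| + |c| + K) ^ K := pow_le_pow_right₀ (by omega) (by omega)
      _ ≤ m := hm
  obtain ⟨h1, h3⟩ := h k c hk m h2 hM hpow
  rw [← T_eq, ← special_eq] at h1
  refine ⟨h1, ?_⟩
  intro Z hZ hbig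
  rw [← special_eq] at h3
  apply h3 Z _ hbig
  unfold IsCycle at hZ
  rw [T_eq] at hZ
  exact hZ

end Pool.Agent.Results.MP_7f88e4_nt.ShiftedPowersUniform
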